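import Pool.Agent.T2H99.CW.Defs
import Pool.Agent.T2H99.CW.U2
import Pool.Agent.T2H99.CW.Z4

/-!
Two competing lazy random walks: a sequence of graphs which satisfies Assumption (A) and for which
the normalised number of vertices painted by the first walk has no normal limit law.

The graphs consist of two cliques with `k ^ 40` vertices each, joined by a circulant bipartite
graph in which every vertex has `k ^ 16` neighbours.
-/

set_option autoImplicit false

open MeasureTheory Filter Topology ProbabilityTheory
open scoped NNReal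

namespace Pool.Agent.Results.MP_7a9606_pr.NoNormalLimit

open Pool.Agent.T2H99.CW

/-- There is a sequence of finite connected vertex-transitive graphs which satisfies
Assumption (A) such that, for every realisation of the two walks and the coins, the normalised
number of vertices with the mark of the first walk converges in distribution to no normal law
(not even a degenerate one), and not even along a subsequence. -/
theorem result : ∃ (V : ℕ → Type) (_ : ∀ n, Fintype (V n)) (G : ∀ n, SimpleGraph (V n)),
    AssumptionA V G ∧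
    (∃ (Ω : ℕ → Type) (_ : ∀ n, MeasurableSpace (Ω n)) (P : ∀ n, Measure (Ω n))
      (X Y : ∀ n, ℕ → Ω n → V n) (c : ∀ n, V n → Ω n → Bool),
      ∀ n, IsModel (G n) (P n) (X n) (Y n) (c n)) ∧
    ∀ (Ω : ℕ → Type) (_ : ∀ n, MeasurableSpace (Ω n)) (P : ∀ n, Measure (Ω n))
      (X Y : ∀ n, ℕ → Ω n → V n) (c : ∀ n, V n → Ω n → Bool),
      (∀ n, IsModel (G n) (P n) (X n) (Y n) (c n)) →
      ∀ ψ : ℕ → ℕ, StrictMono ψ →
      ¬ ∃ (μ : ℝ) (v : ℝ≥0), ∀ f : BoundedContinuousFunction ℝ ℝ,
        Tendsto (fun n => ∫ ω, f (normCount (P (ψ n)) (X (ψ n)) (Y (ψ n)) (c (ψ n)) ω)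
          ∂(P (ψ n))) atTop (𝓝 (∫ x, f x ∂(gaussianReal μ v))) := by
  refine ⟨VS, fun n => inferInstance, GS, assumptionA, ?_, ?_⟩
  · exact ⟨fun n => ℕ → LS n, fun n => inferInstance, fun n => PP (LS n), fun n => WX,
      fun n => WY, fun n => coin, fun n => isModel (mm_le' (by omega))⟩
  · intro Ω _ P X Y c hM ψ hψ
    rintro ⟨μ, v, hf⟩
    refine not_normal hψ.tendsto_atTop ⟨μ, v, fun f => ?_⟩
    refine (hf f).congr fun n => ?_
    have hm : mm (ψ n + 48) ≤ nn (ψ n + 48) := mm_le' (by omega)
    exact int_normCount_eq (hM (ψ n)) (isModel hm) f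

end Pool.Agent.Results.MP_7a9606_pr.NoNormalLimit
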